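import Mathlib

open Filter Topology Matrix

namespace Pool.Agent.Results.MP_313e16_pr.NotMonotone

section defs
variable {K : Type} [Field K] {N : ℕ} [NeZero N]

/-- `m_i(x) = 2 x_{i-1} + x_{i+1}` (indices are cyclic) -/
def mi (x : Fin N → Bool) (i : Fin N) : Fin 4 :=
  (if x (i - 1) then 2 else 0) + (if x (i + 1) then 1 else 0)

/-- `N` times the probability of flipping coordinate `i` -/
def rate (p : Fin 4 → K) (x : Fin N → Bool) (i : Fin N) : K :=
  if x i then 1 - p (mi x i) else p (mi x i)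

/-- transition matrix -/
def P (p : Fin 4 → K) : Matrix (Fin N → Bool) (Fin N → Bool) K := fun x y =>
  (∑ i, if y = Function.update x i (!x i) then rate p x i / N else 0) +
    if y = x then 1 - ∑ i, rate p x i / N else 0

/-- mean profit -/
def mu (p : Fin 4 → K) (π : (Fin N → Bool) → K) : K :=
  1 / N * ∑ x, π x * ∑ i, (p (mi x i) - (1 - p (mi x i)))

end defs

def IsDist {X : Type} [Fintype X] (ν : X → ℝ) : Prop := (∀ x, 0 ≤ ν x) ∧ ∑ x, ν x = 1

/-- `π` is the unique stationary distribution and the chain converges to it from every start -/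
def Ergodic {N : ℕ} [NeZero N] (p : Fin 4 → ℝ) (π : (Fin N → Bool) → ℝ) : Prop :=
  IsDist π ∧ π ᵥ* P p = π ∧ (∀ ν, IsDist ν → ν ᵥ* P p = ν → ν = π) ∧
    ∀ ν, IsDist ν → Tendsto (fun n : ℕ => ν ᵥ* P p ^ n) atTop (𝓝 π)

lemma contr {X : Type} [Fintype X] [DecidableEq X] (A : Matrix X X ℝ) (z : X) (δ : ℝ)
    (h0 : ∀ x y, 0 ≤ A x y) (h1 : ∀ x, ∑ y, A x y = 1) (hz : ∀ x, δ ≤ A x z) (v : X → ℝ)
    (hv : ∑ x, v x = 0) : ∑ y, |(v ᵥ* A) y| ≤ (1 - δ) * ∑ x, |v x| := by
  have e : ∀ y, (v ᵥ* A) y = ∑ x, v x * (A x y - if y = z then δ else 0) := by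
    intro y
    simp only [vecMul, dotProduct, mul_sub, Finset.sum_sub_distrib, ← Finset.sum_mul, hv, zero_mul,
      sub_zero]
  have n : ∀ x y, 0 ≤ A x y - if y = z then δ else 0 := by
    intro x y; split_ifs with h
    · rw [h]; linarith [hz x]
    · simpa using h0 x y
  calc ∑ y, |(v ᵥ* A) y| ≤ ∑ y, ∑ x, |v x| * (A x y - if y = z then δ else 0) := by
        refine Finset.sum_le_sum fun y _ => ?_
        rw [e]
        refine (Finset.abs_sum_le_sum_abs _ _).trans (le_of_eq ?_)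
        refine Finset.sum_congr rfl fun x _ => ?_
        rw [abs_mul, abs_of_nonneg (n x y)]
    _ = (1 - δ) * ∑ x, |v x| := by
        rw [Finset.sum_comm, Finset.mul_sum]
        refine Finset.sum_congr rfl fun x _ => ?_
        rw [← Finset.mul_sum, Finset.sum_sub_distrib, h1, mul_comm]; simp

lemma doeblin {X : Type} [Fintype X] [DecidableEq X] (M : Matrix X X ℝ) (z : X) (k : ℕ)
    (h0 : ∀ x y, 0 ≤ M x y) (h1 : ∀ x, ∑ y, M x y = 1) (hz : ∀ x, 0 < (M ^ k) x z) (π ν : X → ℝ)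
    (hπ : IsDist π) (hs : π ᵥ* M = π) (hν : IsDist ν) :
    Tendsto (fun n : ℕ => ν ᵥ* M ^ n) atTop (𝓝 π) := by
  have p0 : ∀ n x y, 0 ≤ (M ^ n) x y := fun n => Matrix.pow_apply_nonneg h0 n
  have p1 : ∀ n x, ∑ y, (M ^ n) x y = 1 := by
    intro n
    induction n with
    | zero => intro x; simp [Matrix.one_apply]
    | succ n ih =>
      intro x
      simp only [pow_succ', Matrix.mul_apply]
      rw [Finset.sum_comm]
      simp only [← Finset.mul_sum, ih, mul_one, h1]
  have hsn : ∀ n, π ᵥ* M ^ n = π := by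
    intro n
    induction n with
    | zero => simp
    | succ n ih => rw [pow_succ, ← vecMul_vecMul, ih, hs]
  obtain ⟨x0, -, hx0⟩ := Finset.exists_min_image Finset.univ (fun x => (M ^ k) x z) ⟨z, by simp⟩
  set δ := (M ^ k) x0 z
  have d0 : 0 < δ := hz x0
  have d1 : δ ≤ 1 := p1 k x0 ▸ Finset.single_le_sum (f := (M ^ k) x0) (fun y _ => p0 k x0 y)
    (Finset.mem_univ z)
  have sz : ∀ n, ∑ y, ((ν - π) ᵥ* M ^ n) y = 0 := by
    intro n
    simp only [vecMul, dotProduct]
    rw [Finset.sum_comm]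
    simp only [← Finset.mul_sum, p1, mul_one, Pi.sub_apply, Finset.sum_sub_distrib, hν.2, hπ.2, sub_self]
  set d : ℕ → ℝ := fun n => ∑ y, |((ν - π) ᵥ* M ^ n) y| with hd
  have a1 : ∀ m r, d (k * m + r) ≤ (1 - δ) ^ m * d 0 := by
    intro m
    induction m with
    | zero =>
      intro r
      have := contr (M ^ r) z 0 (p0 r) (p1 r) (fun x => p0 r x z) _ (sz 0)
      simpa [hd] using this
    | succ m ih =>
      intro r
      have := contr (M ^ k) z δ (p0 k) (p1 k) (fun x => hx0 x (by simp)) _ (sz (k * m + r))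
      rw [vecMul_vecMul, ← pow_add, show k * m + r + k = k * (m + 1) + r by ring] at this
      refine this.trans ?_
      rw [pow_succ', mul_assoc]
      exact mul_le_mul_of_nonneg_left (ih r) (by linarith)
  have a2 : Tendsto d atTop (𝓝 0) := by
    have t := (tendsto_pow_atTop_nhds_zero_of_lt_one (r := 1 - δ) (by linarith) (by linarith)).mul_const
      (d 0)
    rw [zero_mul] at t
    refine Metric.tendsto_atTop.2 fun ε hε => ?_
    obtain ⟨m, hm⟩ := (t.eventually_lt_const hε).exists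
    refine ⟨k * m, fun n hn => ?_⟩
    obtain ⟨r, rfl⟩ := Nat.exists_eq_add_of_le hn
    rw [Real.dist_eq, sub_zero, abs_of_nonneg (Finset.sum_nonneg fun _ _ => abs_nonneg _)]
    exact (a1 m r).trans_lt hm
  refine tendsto_pi_nhds.2 fun y => tendsto_iff_dist_tendsto_zero.2
    (squeeze_zero (fun _ => dist_nonneg) (fun n => ?_) a2)
  rw [Real.dist_eq]
  refine le_trans (le_of_eq ?_) (Finset.single_le_sum (f := fun y => |((ν - π) ᵥ* M ^ n) y|)
    (fun _ _ => abs_nonneg _) (Finset.mem_univ y))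
  rw [sub_vecMul, hsn]; rfl

lemma castP (p : Fin 4 → ℚ) (x y : Fin 4 → Bool) :
    P (fun k => (p k : ℝ)) x y = ((P p x y : ℚ) : ℝ) := by
  simp only [P, rate]; push_cast [apply_ite (Rat.cast : ℚ → ℝ)]; rfl

lemma castmu (p : Fin 4 → ℚ) (π : (Fin 4 → Bool) → ℚ) :
    mu (fun k => (p k : ℝ)) (fun x => (π x : ℝ)) = ((mu p π : ℚ) : ℝ) := by
  simp only [mu]; push_cast; rfl

lemma erg (p : Fin 4 → ℚ) (π : (Fin 4 → Bool) → ℚ)
    (h : (∀ x y : Fin 4 → Bool, 0 ≤ P p x y) ∧ (∀ x : Fin 4 → Bool, ∑ y, P p x y = 1) ∧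
      (∀ (x : Fin 4 → Bool) i, 0 < P p x (Function.update x i true)) ∧ (∀ x, 0 ≤ π x) ∧
      ∑ x, π x = 1 ∧ ∀ y, ∑ x, π x * P p x y = π y) :
    Ergodic (fun k => (p k : ℝ)) (fun x => (π x : ℝ)) := by
  obtain ⟨h0, h1, h2, h3, h4, h5⟩ := h
  set M : Matrix (Fin 4 → Bool) (Fin 4 → Bool) ℝ := P fun k => (p k : ℝ) with hM
  have g0 : ∀ x y, 0 ≤ M x y := fun x y => by rw [hM, castP]; exact_mod_cast h0 x y
  have g1 : ∀ x, ∑ y, M x y = 1 := fun x => by simp only [hM, castP]; exact_mod_cast h1 x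
  have hπ : IsDist fun x => (π x : ℝ) := ⟨fun x => by dsimp only; exact_mod_cast h3 x, by dsimp only; exact_mod_cast h4⟩
  have hs : (fun x => (π x : ℝ)) ᵥ* M = fun x => (π x : ℝ) := by
    ext y; simp only [vecMul, dotProduct, hM, castP]; exact_mod_cast h5 y
  have pos : ∀ k : ℕ, k ≤ 4 → ∀ x : Fin 4 → Bool, (∀ i : Fin 4, k ≤ i.1 → x i = true) →
      0 < (M ^ k) x fun _ => true := by
    intro k
    induction k with
    | zero =>
      intro _ x hx
      rw [show x = fun _ => true from funext fun i => hx i (Nat.zero_le _)]; simp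
    | succ k ih =>
      intro hk x hx
      rw [pow_succ', Matrix.mul_apply]
      refine lt_of_lt_of_le (mul_pos ?_ (ih (by omega) (Function.update x ⟨k, by omega⟩ true) ?_))
        (Finset.single_le_sum (f := fun y => M x y * (M ^ k) y fun _ => true)
          (fun y _ => mul_nonneg (g0 x y) (Matrix.pow_apply_nonneg g0 k _ _)) (Finset.mem_univ _))
      · rw [hM, castP]; exact_mod_cast h2 x _
      · intro i hi
        by_cases e : i = ⟨k, by omega⟩
        · rw [e]; simp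
        · rw [Function.update_of_ne e]
          exact hx i (by have : i.1 ≠ k := fun h => e (Fin.ext h); omega)
  have conv := fun ν hν => doeblin M (fun _ => true) 4 g0 g1
    (fun x => pos 4 le_rfl x fun i hi => absurd i.2 (by omega)) _ ν hπ hs hν
  refine ⟨hπ, hs, fun ν hν hst => ?_, conv⟩
  have hn : ∀ n, ν ᵥ* M ^ n = ν := by
    intro n
    induction n with
    | zero => simp
    | succ n ih => rw [pow_succ, ← vecMul_vecMul, ih, hst]
  have := conv ν hν
  simp only [hn] at this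
  exact tendsto_nhds_unique tendsto_const_nhds this

def st (a b c d e f : ℚ) (x : Fin 4 → Bool) : ℚ :=
  ![a, b, if x 0 = x 2 then d else c, e, f]
    ((if x 0 then 1 else 0) + (if x 1 then 1 else 0) + (if x 2 then 1 else 0) + (if x 3 then 1 else 0))

def pA : Fin 4 → ℚ := ![4 / 5, 9 / 10, 9 / 10, 1 / 20]
def pB : Fin 4 → ℚ := ![19 / 20, 9 / 10, 9 / 10, 1 / 20]
def sA := st (741 / 123761) (2964 / 123761) (304 / 11251) (35188 / 123761) (6764 / 123761) (356 / 123761)
def sB := st (99 / 236840) (1881 / 236840) (2489 / 236840) (93499 / 236840) (7961 / 236840) (419 / 236840)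

theorem result : ∃ (N : ℕ) (_ : NeZero N), 3 ≤ N ∧ ∃ (j : Fin 4) (p p' : Fin 4 → ℝ),
    (∀ k, p k ∈ Set.Icc (0 : ℝ) 1 ∧ p' k ∈ Set.Icc (0 : ℝ) 1) ∧ (∀ k, k ≠ j → p k = p' k) ∧ p j < p' j ∧
    ∃ π π' : (Fin N → Bool) → ℝ, Ergodic p π ∧ Ergodic p' π' ∧ mu p' π' < mu p π := by
  refine ⟨4, inferInstance, by norm_num, 0, fun k => (pA k : ℝ), fun k => (pB k : ℝ), fun k => ?_,
    fun k hk => ?_, ?_, _, _, erg pA sA (by decide +kernel), erg pB sB (by decide +kernel), ?_⟩
  · fin_cases k <;> simp [pA, pB] <;> norm_num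
  · fin_cases k <;> simp [pA, pB] at hk ⊢
  · simp [pA, pB]; norm_num
  · rw [castmu, castmu]
    exact_mod_cast (by decide +kernel : mu pB sB < mu pA sA)

end Pool.Agent.Results.MP_313e16_pr.NotMonotone
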